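import Mathlib

/-!
# MP_43f217_an : the maximal magnetic Schrodinger operator need not be closable

The graph is a star with infinitely many infinite rays, the bundle is the trivial line bundle with
trivial connection, and `W = 0`.
-/

namespace Pool.Agent.Results.MP_43f217_an.NotClosable

open Filter Topology

noncomputable section

/-- A weighted graph `(X, b)` with a weight `μ`, a unitary connection `Φ` and a self-adjoint
bundle endomorphism `W` on the bundle `E` of Hilbert spaces over `X`. -/
structure MagneticData (X : Type) (E : X → Type) [∀ x, NormedAddCommGroup (E x)]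
    [∀ x, InnerProductSpace ℂ (E x)] [∀ x, CompleteSpace (E x)] where
  /-- the edge weights -/
  b : X → X → ℝ
  b_nonneg : ∀ x y, 0 ≤ b x y
  b_symm : ∀ x y, b x y = b y x
  b_diag : ∀ x, b x x = 0
  b_summable : ∀ x, Summable fun y => b x y
  /-- the vertex weight -/
  μ : X → ℝ
  μ_pos : ∀ x, 0 < μ x
  /-- the unitary connection -/
  Φ : ∀ x y, E y ≃ₗᵢ[ℂ] E x
  Φ_symm : ∀ x y, Φ y x = (Φ x y).symm
  /-- the endomorphism -/
  W : ∀ x, E x →L[ℂ] E x
  W_selfAdjoint : ∀ x, IsSelfAdjoint (W x)

variable {X : Type} {E : X → Type} [∀ x, NormedAddCommGroup (E x)]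
    [∀ x, InnerProductSpace ℂ (E x)] [∀ x, CompleteSpace (E x)]

/-- The formal domain `F_E`. -/
def MagneticData.FormalDomain (D : MagneticData X E) (f : ∀ x, E x) : Prop :=
  ∀ x, Summable fun y => D.b x y * ‖f y‖

/-- The formal operator. -/
def MagneticData.formal (D : MagneticData X E) (f : ∀ x, E x) : ∀ x, E x := fun x =>
  ((D.μ x : ℂ)⁻¹) • (∑' y, (D.b x y : ℂ) • (f x - D.Φ x y (f y))) + D.W x (f x)

/-- Membership in `ℓ²(X, μ; E)`. -/
def MagneticData.InL2 (D : MagneticData X E) (f : ∀ x, E x) : Prop :=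
  Summable fun x => ‖f x‖ ^ 2 * D.μ x

/-- The squared norm of `ℓ²(X, μ; E)`. -/
def MagneticData.sqNorm (D : MagneticData X E) (f : ∀ x, E x) : ℝ := ∑' x, ‖f x‖ ^ 2 * D.μ x

/-- The domain of the maximal operator. -/
def MagneticData.InDmax (D : MagneticData X E) (f : ∀ x, E x) : Prop :=
  D.FormalDomain f ∧ D.InL2 f ∧ D.InL2 (D.formal f)

/-- `(g, h)` is a limit in `ℓ² × ℓ²` of a sequence of elements `(f_n, M f_n)` of the graph of the
maximal operator. -/
def MagneticData.GraphLimit (D : MagneticData X E) (g h : ∀ x, E x) : Prop :=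
  D.InL2 g ∧ D.InL2 h ∧ ∃ f : ℕ → ∀ x, E x, (∀ n, D.InDmax (f n)) ∧
    Tendsto (fun n => D.sqNorm (fun x => f n x - g x)) atTop (𝓝 0) ∧
    Tendsto (fun n => D.sqNorm (fun x => D.formal (f n) x - h x)) atTop (𝓝 0)

/-- The maximal operator is closed. -/
def MagneticData.MaxClosed (D : MagneticData X E) : Prop :=
  ∀ g h : ∀ x, E x, D.GraphLimit g h → D.InDmax g ∧ D.formal g = h

/-- The maximal operator is closable. -/
def MagneticData.MaxClosable (D : MagneticData X E) : Prop :=
  ∀ h : ∀ x, E x, D.GraphLimit (fun _ => 0) h → h = fun _ => 0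

/-! ### The example -/

/-- the vertex set: a centre `none` and the vertices `some (n, k)` of the rays -/
abbrev V : Type := Option (ℕ × ℕ)

/-- edge weights -/
def bb : V → V → ℝ
  | none, none => 0
  | none, some (n, k) => if k = 0 then (1 / 2) ^ n else 0
  | some (n, k), none => if k = 0 then (1 / 2) ^ n else 0
  | some (n, k), some (m, l) => if n = m ∧ (l = k + 1 ∨ k = l + 1) then 1 else 0

/-- vertex weights -/
def mm : V → ℝ
  | none => 1
  | some (n, k) => (1 / 8) ^ n * (1 / 2) ^ k / ((k : ℝ) + 1) ^ 2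

lemma bb_nonneg (x y : V) : 0 ≤ bb x y := by
  rcases x with _ | ⟨n, k⟩ <;> rcases y with _ | ⟨m, l⟩ <;> simp only [bb]
  · exact le_rfl
  · split_ifs <;> positivity
  · split_ifs <;> positivity
  · split_ifs <;> norm_num

lemma bb_symm (x y : V) : bb x y = bb y x := by
  rcases x with _ | ⟨n, k⟩ <;> rcases y with _ | ⟨m, l⟩ <;> simp only [bb]
  by_cases h : n = m ∧ (l = k + 1 ∨ k = l + 1)
  · rw [if_pos h, if_pos ⟨h.1.symm, h.2.symm⟩]
  · rw [if_neg h, if_neg (fun h' => h ⟨h'.1.symm, h'.2.symm⟩)]

lemma bb_diag (x : V) : bb x x = 0 := by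
  rcases x with _ | ⟨n, k⟩ <;> simp [bb]

lemma mm_pos (x : V) : 0 < mm x := by
  rcases x with _ | ⟨n, k⟩ <;> simp only [mm]
  · exact one_pos
  · positivity

lemma bb_supp (n k : ℕ) : Function.support (bb (some (n, k))) ⊆
    ({none, some (n, k + 1), some (n, k - 1)} : Finset V) := by
  intro y hy
  rcases y with _ | ⟨m, l⟩
  · simp
  · simp only [Function.mem_support, bb] at hy
    by_cases h : n = m ∧ (l = k + 1 ∨ k = l + 1)
    · obtain ⟨rfl, h2 | h2⟩ := h
      · subst h2; simp
      · subst h2; simp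
    · rw [if_neg h] at hy
      exact absurd rfl hy

lemma inj0 : Function.Injective (fun n : ℕ => (some (n, 0) : V)) := by
  intro a b h
  simpa using h

lemma supp0 (f : V → ℝ) : Function.support (fun y => bb none y * f y) ⊆
    Set.range (fun n : ℕ => (some (n, 0) : V)) := by
  intro y hy
  rcases y with _ | ⟨m, l⟩
  · simp [bb] at hy
  · by_cases hl : l = 0
    · subst hl; exact ⟨m, rfl⟩
    · simp [bb, hl] at hy

lemma bb_summable (x : V) : Summable fun y => bb x y := by
  rcases x with _ | ⟨n, k⟩
  · have h : Summable ((fun y => bb none y * 1) ∘ (fun n : ℕ => (some (n, 0) : V))) := by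
      have : ((fun y => bb none y * 1) ∘ (fun n : ℕ => (some (n, 0) : V))) =
          fun n : ℕ => (1 / 2 : ℝ) ^ n := by
        funext n; simp [bb]
      rw [this]
      exact summable_geometric_of_lt_one (by norm_num) (by norm_num)
    have h2 := (inj0.summable_iff (f := fun y => bb none y * 1) (fun y hy => by
      by_contra hne
      exact hy (supp0 (fun _ => 1) hne))).1 h
    simpa using h2
  · apply summable_of_hasFiniteSupport
    exact (Finset.finite_toSet _).subset (bb_supp n k)

/-- the data of the example -/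
def D : MagneticData V (fun _ => ℂ) where
  b := bb
  b_nonneg := bb_nonneg
  b_symm := bb_symm
  b_diag := bb_diag
  b_summable := bb_summable
  μ := mm
  μ_pos := mm_pos
  Φ := fun _ _ => LinearIsometryEquiv.refl ℂ ℂ
  Φ_symm := fun _ _ => rfl
  W := fun _ => 0
  W_selfAdjoint := fun _ => IsSelfAdjoint.zero _

/-- the functions `f_N` -/
def fN (N : ℕ) : V → ℂ
  | none => 0
  | some (m, l) => if m = N then (2 : ℂ) ^ N + l else 0

/-- the limit of `M f_N` -/
def hh : V → ℂ
  | none => -1
  | some _ => 0

lemma fN_domain (N : ℕ) : D.FormalDomain (fN N) := by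
  intro x
  rcases x with _ | ⟨n, k⟩
  · apply summable_of_hasFiniteSupport
    apply (Set.finite_singleton (some (N, 0) : V)).subset
    intro y hy
    rcases y with _ | ⟨m, l⟩
    · simp [D, bb] at hy
    · simp only [D, bb, fN, Function.mem_support] at hy
      by_cases hl : l = 0
      · by_cases hm : m = N
        · subst hl; subst hm; rfl
        · simp [hm] at hy
      · simp [hl] at hy
  · apply summable_of_hasFiniteSupport
    apply (Finset.finite_toSet _).subset ((Function.support_mul_subset_left _ _).trans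
      (bb_supp n k))

lemma formal_none (N : ℕ) : D.formal (fN N) none = -1 := by
  have h : ∑' y, (D.b none y : ℂ) • (fN N none - D.Φ none y (fN N y)) = -1 := by
    rw [tsum_eq_single (some (N, 0) : V)]
    · simp [D, bb, fN]
    · intro y hy
      rcases y with _ | ⟨m, l⟩
      · simp [D, bb]
      · by_cases hl : l = 0
        · by_cases hm : m = N
          · subst hl; subst hm; exact absurd rfl hy
          · simp [D, fN, hm]
        · simp [D, bb, hl]
  unfold MagneticData.formal
  rw [h]
  simp [D, mm]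

lemma formal_some (N m l : ℕ) : D.formal (fN N) (some (m, l)) = 0 := by
  have h : ∑' y, (D.b (some (m, l)) y : ℂ) •
      (fN N (some (m, l)) - D.Φ (some (m, l)) y (fN N y)) = 0 := by
    rw [tsum_eq_sum (s := ({none, some (m, l + 1), some (m, l - 1)} : Finset V))]
    · rcases l with _ | l
      · rw [show (({none, some (m, 0 + 1), some (m, 0 - 1)} : Finset V)) =
          {none, some (m, 1), some (m, 0)} from rfl]
        rw [Finset.sum_insert (by simp), Finset.sum_insert (by simp), Finset.sum_singleton]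
        by_cases hm : m = N
        · subst hm
          simp [D, bb, fN]
        · simp [D, fN, hm]
      · rw [show (({none, some (m, l + 1 + 1), some (m, l + 1 - 1)} : Finset V)) =
          {none, some (m, l + 2), some (m, l)} from rfl]
        rw [Finset.sum_insert (by simp), Finset.sum_insert (by simp), Finset.sum_singleton]
        by_cases hm : m = N
        · subst hm
          simp [D, bb, fN]
          ring
        · simp [D, fN, hm]
    · intro y hy
      have h1 : bb (some (m, l)) y = 0 := by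
        by_contra hne
        exact hy (bb_supp m l hne)
      simp [D, h1]
  unfold MagneticData.formal
  rw [h]
  simp [D]

lemma formal_eq (N : ℕ) : D.formal (fN N) = hh := by
  funext x
  rcases x with _ | ⟨m, l⟩
  · exact formal_none N
  · exact formal_some N m l

lemma hh_L2 : D.InL2 hh := by
  apply summable_of_hasFiniteSupport
  apply (Set.finite_singleton (none : V)).subset
  intro y hy
  rcases y with _ | ⟨m, l⟩
  · rfl
  · simp [hh] at hy

lemma injN (N : ℕ) : Function.Injective (fun l : ℕ => (some (N, l) : V)) := by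
  intro a b h
  simpa using h

lemma suppN (N : ℕ) : Function.support (fun x => ‖fN N x‖ ^ 2 * D.μ x) ⊆
    Set.range (fun l : ℕ => (some (N, l) : V)) := by
  intro y hy
  rcases y with _ | ⟨m, l⟩
  · simp [fN] at hy
  · by_cases hm : m = N
    · subst hm; exact ⟨l, rfl⟩
    · simp [fN, hm] at hy

lemma termN (N l : ℕ) : ‖fN N (some (N, l))‖ ^ 2 * D.μ (some (N, l)) ≤
    (1 / 2) ^ N * (1 / 2) ^ l := by
  have h1 : ‖fN N (some (N, l))‖ = 2 ^ N + (l : ℝ) := by
    have : fN N (some (N, l)) = ((2 ^ N + (l : ℝ) : ℝ) : ℂ) := by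
      simp [fN]
    rw [this, Complex.norm_real, Real.norm_eq_abs, abs_of_nonneg (by positivity)]
  have h2 : D.μ (some (N, l)) = (1 / 8) ^ N * (1 / 2) ^ l / ((l : ℝ) + 1) ^ 2 := rfl
  rw [h1, h2]
  have h3 : (2 : ℝ) ^ N + l ≤ 2 ^ N * ((l : ℝ) + 1) := by
    have : (1 : ℝ) ≤ 2 ^ N := one_le_pow₀ (by norm_num)
    have hl : (0 : ℝ) ≤ l := Nat.cast_nonneg l
    nlinarith
  have h4 : ((2 : ℝ) ^ N + l) ^ 2 ≤ (2 ^ N * ((l : ℝ) + 1)) ^ 2 :=
    pow_le_pow_left₀ (by positivity) h3 2
  calc ((2 : ℝ) ^ N + l) ^ 2 * ((1 / 8) ^ N * (1 / 2) ^ l / ((l : ℝ) + 1) ^ 2)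
      ≤ (2 ^ N * ((l : ℝ) + 1)) ^ 2 * ((1 / 8) ^ N * (1 / 2) ^ l / ((l : ℝ) + 1) ^ 2) :=
        mul_le_mul_of_nonneg_right h4 (by positivity)
    _ = ((2 : ℝ) ^ N) ^ 2 * (1 / 8) ^ N * (1 / 2) ^ l := by
        field_simp
    _ = (1 / 2) ^ N * (1 / 2) ^ l := by
        rw [← pow_mul, mul_comm N 2, pow_mul, ← mul_pow]
        norm_num

lemma geomN (N : ℕ) : Summable fun l : ℕ => (1 / 2 : ℝ) ^ N * (1 / 2) ^ l :=
  (summable_geometric_of_lt_one (by norm_num) (by norm_num)).mul_left _

lemma fN_summable (N : ℕ) : Summable fun l : ℕ =>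
    ‖fN N (some (N, l))‖ ^ 2 * D.μ (some (N, l)) :=
  Summable.of_nonneg_of_le (fun l => mul_nonneg (by positivity) (D.μ_pos _).le) (termN N) (geomN N)

lemma fN_L2 (N : ℕ) : D.InL2 (fN N) := by
  unfold MagneticData.InL2
  refine ((injN N).summable_iff (fun y hy => ?_)).1 (fN_summable N)
  by_contra hne
  exact hy (suppN N hne)

lemma fN_sq (N : ℕ) : D.sqNorm (fN N) ≤ 2 * (1 / 2) ^ N := by
  unfold MagneticData.sqNorm
  rw [← (injN N).tsum_eq (suppN N)]
  refine ((fN_summable N).tsum_le_tsum (termN N) (geomN N)).trans (le_of_eq ?_)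
  rw [tsum_mul_left, tsum_geometric_of_lt_one (by norm_num) (by norm_num)]
  norm_num
  ring

lemma fN_sq_nonneg (N : ℕ) : 0 ≤ D.sqNorm (fN N) :=
  tsum_nonneg (fun x => mul_nonneg (by positivity) (D.μ_pos x).le)

lemma graphLimit : D.GraphLimit (fun _ => 0) hh := by
  refine ⟨?_, hh_L2, fN, fun N => ⟨fN_domain N, fN_L2 N, ?_⟩, ?_, ?_⟩
  · unfold MagneticData.InL2
    simp
  · rw [formal_eq]; exact hh_L2
  · have h1 : Tendsto (fun N : ℕ => 2 * (1 / 2 : ℝ) ^ N) atTop (𝓝 (2 * 0)) :=
      (tendsto_pow_atTop_nhds_zero_of_lt_one (by norm_num) (by norm_num)).const_mul 2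
    rw [mul_zero] at h1
    refine squeeze_zero (fun N => ?_) (fun N => ?_) h1
    · have := fN_sq_nonneg N
      simpa using this
    · have := fN_sq N
      simpa using this
  · have : (fun N => D.sqNorm (fun x => D.formal (fN N) x - hh x)) = fun _ => 0 := by
      funext N
      rw [formal_eq]
      simp [MagneticData.sqNorm]
    rw [this]
    exact tendsto_const_nhds

/-- There are a weighted graph over a countable set and a vertex weight such that, for the trivial
line bundle with the trivial connection and `W = 0`, the maximal operator is not closed, and not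
even closable. -/
theorem result :
    ∃ (X : Type) (_ : Countable X) (D : MagneticData X (fun _ => ℂ)),
      (∀ x y, D.Φ x y = LinearIsometryEquiv.refl ℂ ℂ) ∧ (∀ x, D.W x = 0) ∧
      ¬ D.MaxClosed ∧ ¬ D.MaxClosable := by
  refine ⟨V, inferInstance, D, fun _ _ => rfl, fun _ => rfl, fun h => ?_, fun h => ?_⟩
  · have h1 := (h _ _ graphLimit).2
    have h2 := congrFun h1 none
    have h3 : D.formal (fun _ => 0) none = 0 := by
      simp [MagneticData.formal, D]
    rw [h3] at h2
    simp [hh] at h2
  · have h1 := h _ graphLimit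
    have h2 := congrFun h1 none
    simp [hh] at h2

end

end Pool.Agent.Results.MP_43f217_an.NotClosable
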